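import Mathlib
import Pool.Agent.N889.SN.Horo

/-!
# Project HS (MP_8fded1_nt slot 4): half horocycles control

`U` satisfies `Per K U` (period one and the Hecke relations for all primes, `N889/SN/Horo.lean`).
`Z` is a closed subset of the line with period one such that for some prime `p` for every `x` at most one of the
numbers `x + j / p`, `0 ≤ j < p`, is not in `Z`.  If `|U| ≤ δ` at all `w` with `Re w ∈ Z`, `a ≤ Im w ≤ b`, where
`b / a` is large in terms of `Z`, then `|U| ≤ C δ` on a full band.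

Proof.  Let `ℓ ≠ p` be an odd prime.
(GROW) If `|U v| ≥ A` then for every child `c = (v + j) / ℓ` of `v` either `|U c| ≥ A / κ` or some child `c'` of `c`
has `|U c'| ≥ A / κ ^ 2` (Hecke relation at `c`: the sum over the children of `c` is `c_ℓ U c - U (v + j)`).  So `v` has
many descendants `(v + t) / ℓ ^ d`, `t ∈ T`, with `|U| ≥ A / κ ^ d`.
(HIT) For every large set `T` of residues `t` modulo `ℓ ^ d` some `p ^ m (x + t) / ℓ ^ d` is in a given interval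
modulo one (Parseval; the powers of `p` are equidistributed modulo `ℓ ^ d`).
(ASC) If `p ^ m v` and `p ^ (m + 1) v` have real part in `Z` then `|U v| ≤ C ^ m δ`, as
`U (w) + ∑_{0 < j < p} U (w + j / p) = c_p U (p w) - U (p ^ 2 w)` and at most one of the real parts of `w + j / p` is
not in `Z`.
-/

set_option autoImplicit false

open Finset

namespace Pool.Agent.D0H19.HS

open Pool.Agent.N889.SN (Per)

/-- `e x = exp (2 π i x)` -/
noncomputable def e (x : ℝ) : ℂ := Complex.exp (((2 * Real.pi * x : ℝ) : ℂ) * Complex.I)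

/-- PARS (20 min).  Parseval on `ℤ / q`: expand the square, and sum the geometric progression over `a`. -/
def S_PARS : Prop := ∀ q : ℕ, 0 < q → ∀ T : Finset ℕ, T ⊆ range q →
  ∑ a ∈ range q, ‖∑ t ∈ T, e ((a : ℝ) * t / q)‖ ^ 2 = (q : ℝ) * T.card

/-- MULT (25 min; uses PARS as a hypothesis).  `ℓ` an odd prime, `b > 1`, `ℓ ∣ b - 1`.
`f a := ‖∑ t ∈ T, e (a t / q)‖ ^ 2` (`q = ℓ ^ d`) depends only on `a` modulo `q` (an integer `a`), so the sum is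
`∑_{a mod q} f a #{m < q : h b ^ m ≡ a mod q}`, and every fibre has at most `|h| (b - 1)` elements: if
`h b ^ m ≡ h b ^ m'` modulo `ℓ ^ d`, `m' < m`, then `d ≤ v(h) + v(b ^ (m - m') - 1) = v(h) + v(b - 1) + v(m - m')` (lifting
the exponent: `padicValNat.pow_sub_pow` or `Int.emultiplicity_pow_sub_pow`), so `m ≡ m'` modulo `ℓ ^ (d - s)`,
`s = v(h) + v(b - 1)`, and at most `ℓ ^ s ≤ |h| (b - 1)` numbers `m < ℓ ^ d` are in one class (if `s ≥ d` then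
`ℓ ^ d ≤ ℓ ^ s`). -/
def S_MULT : Prop := ∀ l : ℕ, l.Prime → l ≠ 2 → ∀ b : ℕ, 1 < b → l ∣ b - 1 → ∀ (d : ℕ) (h : ℤ), h ≠ 0 →
  ∀ T : Finset ℕ, T ⊆ range (l ^ d) →
    ∑ m ∈ range (l ^ d), ‖∑ t ∈ T, e ((h : ℝ) * (b : ℝ) ^ m * t / (l : ℝ) ^ d)‖ ^ 2 ≤
      |(h : ℝ)| * ((b : ℝ) - 1) * (l : ℝ) ^ d * T.card

/-- HIT (35 min; uses MULT as a hypothesis).  Suppose that no `x_{m,t} = b ^ m (x + t) / l ^ d`, `m < l ^ d`, `t ∈ T`, has
distance `< r` from `c + n`, `n` an integer.  We may assume `r ≤ 1 / 2`.  Let `D y = ∑_{i < N} e (i y)`.  If `y` has distance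
`≥ r` from the integers then `|D y| ≤ 2 / |1 - e y| = 1 / |sin π y| ≤ 1 / sin π r`, so `|D y| ^ 2 ≤ B` with `B` depending only
on `r` (any bound will do, for instance `|1 - e y| ≥ 4 r` for `r ≤ 1 / 2`).  Take `N ≥ B + 1`.  Then
`B l ^ d |T| ≥ ∑_{m,t} |D (x_{m,t} - c)| ^ 2 = ∑_{i,j < N} e (- (i - j) c) ∑_m e ((i - j) b ^ m x / l ^ d) ∑_t e ((i - j) b ^ m t / l ^ d)`;
the terms `i = j` give `N l ^ d |T|`, and the others are, by Cauchy-Schwarz and MULT, at most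
`(l ^ d * |i - j| (b - 1) l ^ d |T|) ^ (1/2) ≤ l ^ d (N (b - 1) |T|) ^ (1/2)` each.  So
`(N - B) |T| ≤ N ^ 2 (N (b - 1) |T|) ^ (1/2)`, hence `|T| ≤ N ^ 5 (b - 1)`.  So `N₀ = N ^ 5 (b - 1) + 1`. -/
def S_HIT : Prop := ∀ l : ℕ, l.Prime → l ≠ 2 → ∀ b : ℕ, 1 < b → l ∣ b - 1 → ∀ c r : ℝ, 0 < r →
  ∃ N₀ : ℕ, ∀ d : ℕ, ∀ T : Finset ℕ, T ⊆ range (l ^ d) → N₀ ≤ T.card → ∀ x : ℝ,
    ∃ t ∈ T, ∃ m < l ^ d, ∃ n : ℤ, |(b : ℝ) ^ m * (x + t) / (l : ℝ) ^ d - c - n| < r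

/-- GROW (30 min).  Let `S d = {t < l ^ d : ‖U ((z + t) / l ^ d)‖ ≥ A / κ ^ d}` with `κ = 2 l + 2 K l` (`K l ≥ 0` follows from
the existence of the eigenvalue).  Then `l #S d ≤ #S (d + 1) + #S (d + 2)`: for `t ∈ S d` and `j < l` let
`c = (z + t + j l ^ d) / l ^ (d + 1)`; if `‖U c‖ ≥ A / κ ^ (d + 1)` then `t + j l ^ d ∈ S (d + 1)`; otherwise the Hecke
relation at `c` (`l c = (z + t) / l ^ d + j`, period one) gives `‖∑_{i < l} U ((c + i) / l)‖ ≥ A / κ ^ d - K l A / κ ^ (d + 1) ≥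
A / (2 κ ^ d)`, so that some `t + j l ^ d + i l ^ (d + 1) ∈ S (d + 2)`; these numbers are different for different `(t, j)`
(reduce modulo `l ^ (d + 1)`, and `S (d + 1)`, `S (d + 2)` are counted separately).  So
`max (#S (d + 1)) (#S (d + 2)) ≥ (l / 2) #S d`, and by induction on `n`. -/
def S_GROW : Prop := ∀ (K : ℕ → ℝ) (U : ℂ → ℂ), Per K U → ∀ l : ℕ, l.Prime →
  ∀ (z : ℂ) (A : ℝ), 0 < z.im → 0 < A → A ≤ ‖U z‖ → ∀ n : ℕ, ∃ d ≤ 2 * n, ∃ T : Finset ℕ, T ⊆ range (l ^ d) ∧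
    ((l : ℝ) / 2) ^ n ≤ T.card ∧ ∀ t ∈ T, A / (2 * l + 2 * K l) ^ d ≤ ‖U ((z + t) / (l : ℂ) ^ d)‖

end Pool.Agent.D0H19.HS
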