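import Mathlib
import Pool.Agent.D0H19.HS.Stm

/-!
# Project HS: ascending, and the band
-/

set_option autoImplicit false

open Finset

namespace Pool.Agent.D0H19.HS

open Pool.Agent.N889.SN (Per)

variable {K : ℕ → ℝ} {U : ℂ → ℂ}

/-- at most one of the numbers `x + j / p`, `0 ≤ j < p`, is not in `Z` -/
def Thick (p : ℕ) (Z : Set ℝ) : Prop :=
  ∀ (x : ℝ) (i j : ℕ), i < p → j < p → x + i / p ∉ Z → x + j / p ∉ Z → i = j

/-- period one -/
def Inv (Z : Set ℝ) : Prop := ∀ x : ℝ, x ∈ Z ↔ x + 1 ∈ Z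

lemma Inv.nat {Z : Set ℝ} (h : Inv Z) (n : ℕ) (x : ℝ) : x ∈ Z ↔ x + n ∈ Z := by
  induction n with
  | zero => simp
  | succ n ih =>
    rw [ih, h (x + n)]
    push_cast
    rw [add_assoc]

lemma Inv.int {Z : Set ℝ} (h : Inv Z) (n : ℤ) (x : ℝ) : x ∈ Z ↔ x + n ∈ Z := by
  obtain ⟨m, rfl | rfl⟩ := n.eq_nat_or_neg
  · exact_mod_cast h.nat m x
  · have h2 := h.nat m (x + ((-(m : ℤ) : ℤ) : ℝ))
    rw [h2]
    push_cast
    rw [neg_add_cancel_right]

lemma per_nonneg (h : Per K U) {p : ℕ} (hp : p.Prime) : 0 ≤ K p := by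
  obtain ⟨c, hc, -⟩ := h.hecke p hp
  exact (norm_nonneg c).trans hc

/-- ASC -/
lemma asc (h : Per K U) {p : ℕ} (hp : p.Prime) {Z : Set ℝ} (hT : Thick p Z) {a b δ : ℝ} (ha : 0 < a)
    (hδ : 0 ≤ δ) (hd : ∀ w : ℂ, w.re ∈ Z → a ≤ w.im → w.im ≤ b → ‖U w‖ ≤ δ) (m : ℕ) :
    ∀ v : ℂ, a ≤ v.im → (p : ℝ) ^ (m + 1) * v.im ≤ b → (p : ℝ) ^ m * v.re ∈ Z → (p : ℝ) ^ (m + 1) * v.re ∈ Z →
      ‖U v‖ ≤ (K p + p + 1) ^ m * δ ∧ ‖U (p * v)‖ ≤ (K p + p + 1) ^ m * δ := by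
  have hp1 : (1 : ℝ) ≤ p := by exact_mod_cast hp.one_lt.le
  have hp0 : (0 : ℝ) < p := by linarith
  have hpc : (p : ℂ) ≠ 0 := by exact_mod_cast hp.ne_zero
  have hK := per_nonneg h hp
  have hC1 : 1 ≤ K p + p + 1 := by linarith
  have hre : ∀ v : ℂ, ((p : ℂ) * v).re = p * v.re := fun v => by simp
  have him : ∀ v : ℂ, ((p : ℂ) * v).im = p * v.im := fun v => by simp
  induction m with
  | zero =>
    intro v h1 h2 h3 h4
    have hv0 : 0 ≤ v.im := ha.le.trans h1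
    refine ⟨?_, ?_⟩
    · rw [pow_zero, one_mul]
      refine hd v (by simpa using h3) h1 (le_trans ?_ h2)
      rw [zero_add, pow_one]
      nlinarith
    · rw [pow_zero, one_mul]
      refine hd _ ?_ ?_ ?_
      · rw [hre]
        simpa using h4
      · rw [him]
        nlinarith
      · rw [him]
        simpa using h2
  | succ m ih =>
    intro v h1 h2 h3 h4
    have hv0 : 0 < v.im := ha.trans_le h1
    have hpv0 : 0 < ((p : ℂ) * v).im := by rw [him]; positivity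
    obtain ⟨e1, e2⟩ := ih (p * v) (by rw [him]; nlinarith)
      (by rw [him]; calc (p : ℝ) ^ (m + 1) * (p * v.im) = (p : ℝ) ^ (m + 1 + 1) * v.im := by ring
            _ ≤ b := h2)
      (by rw [hre]; convert h3 using 1; ring) (by rw [hre]; convert h4 using 1; ring)
    have hCm : 0 ≤ (K p + p + 1) ^ m * δ := by positivity
    have hCm1 : δ ≤ (K p + p + 1) ^ m * δ := le_mul_of_one_le_left hδ (one_le_pow₀ hC1)
    have hstep : (K p + p + 1) ^ (m + 1) * δ = (K p + p + 1) * ((K p + p + 1) ^ m * δ) := by ring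
    refine ⟨?_, e1.trans ?_⟩
    · have hvb : v.im ≤ b := by
        refine le_trans ?_ h2
        have : (1 : ℝ) ≤ (p : ℝ) ^ (m + 1 + 1) := one_le_pow₀ hp1
        nlinarith
      by_cases hvZ : v.re ∈ Z
      · refine (hd v hvZ h1 hvb).trans ?_
        rw [hstep]
        nlinarith
      · obtain ⟨c, hc, hrel⟩ := h.hecke p hp
        have h5 := hrel (p * v) hpv0
        have h6 : ∑ b ∈ range p, U ((p * v + b) / p) = U v + ∑ j ∈ (range p).erase 0, U (v + (j : ℂ) / p) := by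
          rw [← Finset.add_sum_erase (range p) _ (mem_range.2 hp.pos)]
          congr 1
          · congr 1
            push_cast
            field_simp
            ring
          · refine Finset.sum_congr rfl fun j _ => ?_
            congr 1
            field_simp
        have h7 : ∀ j ∈ (range p).erase 0, ‖U (v + (j : ℂ) / p)‖ ≤ δ := by
          intro j hj
          rw [mem_erase, mem_range] at hj
          have ere : (v + (j : ℂ) / p).re = v.re + j / p := by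
            have : (j : ℂ) / p = ((j / p : ℝ) : ℂ) := by push_cast; rfl
            rw [this]
            simp
          have eim : (v + (j : ℂ) / p).im = v.im := by
            have : (j : ℂ) / p = ((j / p : ℝ) : ℂ) := by push_cast; rfl
            rw [this]
            simp
          refine hd _ ?_ (by rw [eim]; exact h1) (by rw [eim]; exact hvb)
          rw [ere]
          by_contra hcon
          exact hj.1 (hT v.re j 0 hj.2 hp.pos hcon (by simpa using hvZ))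
        have h8 : ‖∑ j ∈ (range p).erase 0, U (v + (j : ℂ) / p)‖ ≤ p * δ := by
          refine (norm_sum_le_of_le _ h7).trans ?_
          rw [Finset.sum_const, nsmul_eq_mul]
          gcongr
          exact (Finset.card_le_card (Finset.erase_subset _ _)).trans_eq (card_range p)
        have h9 : U v = c * U (p * v) - U (p * (p * v)) - ∑ j ∈ (range p).erase 0, U (v + (j : ℂ) / p) := by
          rw [← h5, h6]
          ring
        rw [h9]
        calc ‖c * U (p * v) - U (p * (p * v)) - ∑ j ∈ (range p).erase 0, U (v + (j : ℂ) / p)‖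
            ≤ ‖c * U (p * v)‖ + ‖U (p * (p * v))‖ + ‖∑ j ∈ (range p).erase 0, U (v + (j : ℂ) / p)‖ :=
              (norm_sub_le _ _).trans (by gcongr; exact norm_sub_le _ _)
          _ ≤ K p * ((K p + p + 1) ^ m * δ) + (K p + p + 1) ^ m * δ + p * δ := by
              rw [norm_mul]
              gcongr
          _ ≤ (K p + p + 1) ^ (m + 1) * δ := by
              rw [hstep]
              nlinarith
    · rw [hstep]
      nlinarith

/-- an interval in `Z` whose image under multiplication by `p` is in `Z` -/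
lemma exists_O {p : ℕ} (hp : 2 ≤ p) {Z : Set ℝ} (hc : IsClosed Z) (hi : Inv Z) (hT : Thick p Z) :
    ∃ c r : ℝ, 0 < r ∧ ∀ x : ℝ, |x - c| < r → x ∈ Z ∧ p * x ∈ Z := by
  have hp0 : (0 : ℝ) < p := by exact_mod_cast (by omega : 0 < p)
  have key : ∀ V : Set ℝ, IsOpen V → V.Nonempty → ∃ c r : ℝ, 0 < r ∧ ∀ x : ℝ, |x - c| < r →
      x ∈ Z ∧ (x ∈ V ∨ x - 1 / p ∈ V) := by
    intro V hV hV'
    by_cases hsub : V ⊆ Z
    · obtain ⟨c, hcV⟩ := hV'
      obtain ⟨r, hr, hball⟩ := Metric.isOpen_iff.1 hV c hcV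
      refine ⟨c, r, hr, fun x hx => ?_⟩
      have hxV : x ∈ V := hball (by rwa [Metric.mem_ball, Real.dist_eq])
      exact ⟨hsub hxV, Or.inl hxV⟩
    · obtain ⟨c, hcV, hcZ⟩ := Set.not_subset.1 hsub
      obtain ⟨r, hr, hball⟩ := Metric.isOpen_iff.1 (hV.inter hc.isOpen_compl) c ⟨hcV, hcZ⟩
      refine ⟨c + 1 / p, r, hr, fun x hx => ?_⟩
      have hxV : x - 1 / p ∈ V ∩ Zᶜ := hball (by
        rw [Metric.mem_ball, Real.dist_eq]
        convert hx using 2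
        ring)
      refine ⟨?_, Or.inr hxV.1⟩
      by_contra hxZ
      have := hT (x - 1 / p) 0 1 (by omega) (by omega) (by simpa using hxV.2)
        (by simpa using hxZ)
      omega
  obtain ⟨c₀, r₀, hr₀, h₀⟩ := key Set.univ isOpen_univ Set.univ_nonempty
  obtain ⟨c, r, hr, h1⟩ := key {x : ℝ | |p * x - c₀| < r₀}
    (isOpen_lt (by fun_prop) continuous_const) ⟨c₀ / p, by
      show |p * (c₀ / p) - c₀| < r₀
      rw [mul_div_cancel₀ _ hp0.ne']
      simpa using hr₀⟩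
  refine ⟨c, r, hr, fun x hx => ⟨(h1 x hx).1, ?_⟩⟩
  rcases (h1 x hx).2 with h2 | h2
  · exact (h₀ _ h2).1
  · have h3 := (h₀ _ h2).1
    rw [hi] at h3
    convert h3 using 1
    field_simp
    ring

/-- the uniform form of `S_HIT` -/
def S_HITu : Prop := ∀ l : ℕ, l.Prime → l ≠ 2 → ∀ b : ℕ, 1 < b → l ∣ b - 1 → ∀ r : ℝ, 0 < r →
  ∃ N₀ : ℕ, ∀ (c : ℝ) (d : ℕ) (T : Finset ℕ), T ⊆ range (l ^ d) → N₀ ≤ T.card → ∀ x : ℝ,
    ∃ t ∈ T, ∃ m < l ^ d, ∃ n : ℤ, |(b : ℝ) ^ m * (x + t) / (l : ℝ) ^ d - c - n| < r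

/-- the dead zone `Z` at the heights `[a, b]` -/
def Dead (U : ℂ → ℂ) (Z : Set ℝ) (a b δ : ℝ) : Prop := ∀ w : ℂ, w.re ∈ Z → a ≤ w.im → w.im ≤ b → ‖U w‖ ≤ δ

/-- MAIN: the band, uniformly in the set `Z` -/
theorem bandu (hHIT : S_HITu) (hGROW : S_GROW) (K : ℕ → ℝ) (hK : ∀ p, 0 ≤ K p) {p : ℕ} (hp : p.Prime) {r : ℝ}
    (hr : 0 < r) :
    ∃ q R C : ℝ, 1 ≤ q ∧ 2 * q ≤ R ∧ 0 < C ∧ ∀ Z : Set ℝ, Inv Z → Thick p Z →
      (∃ c : ℝ, ∀ x : ℝ, |x - c| < r → x ∈ Z ∧ p * x ∈ Z) → ∀ U : ℂ → ℂ, Per K U → ∀ a δ : ℝ, 0 < a → 0 ≤ δ →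
      Dead U Z a (R * a) δ → ∀ z : ℂ, q * a ≤ z.im → z.im ≤ 2 * q * a → ‖U z‖ ≤ C * δ := by
  obtain ⟨l, hl, hl2, hlp⟩ : ∃ l : ℕ, l.Prime ∧ 2 < l ∧ l ≠ p := by
    by_cases h3 : p = 3
    · exact ⟨5, by norm_num, by norm_num, by omega⟩
    · exact ⟨3, by norm_num, by norm_num, fun h => h3 h.symm⟩
  set b : ℕ := p ^ (l - 1) with hb
  have hb1 : 1 < b := Nat.one_lt_pow (by omega) hp.one_lt
  have hbl : l ∣ b - 1 := by
    have hcop : Nat.Coprime p l := (Nat.coprime_primes hp hl).2 (fun h => hlp h.symm)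
    have h1 : b ≡ 1 [MOD l] := by
      have h2 := Nat.ModEq.pow_totient hcop
      rwa [Nat.totient_prime hl] at h2
    exact (Nat.modEq_iff_dvd' hb1.le).1 h1.symm
  obtain ⟨N₀, hN₀⟩ := hHIT l hl (by omega) b hb1 hbl r hr
  have hl3 : (1 : ℝ) < (l : ℝ) / 2 := by
    have : (3 : ℝ) ≤ l := by exact_mod_cast hl2
    linarith
  obtain ⟨n, hn⟩ := pow_unbounded_of_one_lt (N₀ : ℝ) hl3
  set M : ℕ := (l - 1) * l ^ (2 * n) with hM
  have hp1 : (1 : ℝ) ≤ p := by exact_mod_cast hp.one_lt.le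
  have hl1 : (1 : ℝ) ≤ l := by exact_mod_cast hl.one_lt.le
  have hq1 : (1 : ℝ) ≤ (l : ℝ) ^ (2 * n) := one_le_pow₀ hl1
  have hPM : (1 : ℝ) ≤ (p : ℝ) ^ (M + 1) := one_le_pow₀ hp1
  have hκ1 : (1 : ℝ) ≤ 2 * l + 2 * K l := by
    have := hK l
    linarith
  have hC1 : (1 : ℝ) ≤ K p + p + 1 := by
    have := hK p
    linarith
  refine ⟨(l : ℝ) ^ (2 * n), 2 * (l : ℝ) ^ (2 * n) * (p : ℝ) ^ (M + 1),
    (2 * l + 2 * K l) ^ (2 * n) * (K p + p + 1) ^ M, hq1, ?_, by positivity, ?_⟩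
  · exact le_mul_of_one_le_right (by positivity) hPM
  intro Z hi hT ⟨c, hO⟩ U hU a δ ha hδ hdead z hz1 hz2
  have hz0 : 0 < z.im := lt_of_lt_of_le (by positivity) hz1
  rcases (norm_nonneg (U z)).eq_or_lt with h0 | h0
  · rw [← h0]
    positivity
  obtain ⟨d, hdn, T, hTs, hTc, hTv⟩ := hGROW K U hU l hl z ‖U z‖ hz0 h0 le_rfl n
  have hcard : N₀ ≤ T.card := by
    have : (N₀ : ℝ) ≤ T.card := hn.le.trans hTc
    exact_mod_cast this
  obtain ⟨t, ht, m, hm, k, hk⟩ := hN₀ c d T hTs hcard z.re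
  have hlc : ((l : ℂ) ^ d) ≠ 0 := pow_ne_zero _ (by exact_mod_cast hl.ne_zero)
  have hlr : (0 : ℝ) < (l : ℝ) ^ d := by positivity
  set v : ℂ := (z + t) / (l : ℂ) ^ d with hv
  have hve : v = ((z.re + t) / (l : ℝ) ^ d : ℝ) + ((z.im / (l : ℝ) ^ d : ℝ) : ℂ) * Complex.I := by
    rw [hv, div_eq_iff hlc]
    push_cast
    have h4 : ((l : ℂ) ^ d) ≠ 0 := hlc
    field_simp
    rw [add_right_comm, Complex.re_add_im]
  have hvre : v.re = (z.re + t) / (l : ℝ) ^ d := by rw [hve]; simp [-Complex.ofReal_div, -Complex.ofReal_add]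
  have hvim : v.im = z.im / (l : ℝ) ^ d := by rw [hve]; simp [-Complex.ofReal_div, -Complex.ofReal_add]
  have hmM : (l - 1) * m ≤ M := by
    rw [hM]
    refine Nat.mul_le_mul_left _ (hm.le.trans (Nat.pow_le_pow_right hl.pos hdn))
  have hbm : (p : ℝ) ^ ((l - 1) * m) = (b : ℝ) ^ m := by
    rw [hb, pow_mul]
    push_cast
    rfl
  have hy := hO ((p : ℝ) ^ ((l - 1) * m) * v.re - k) (by
    rw [hbm, hvre]
    convert hk using 2
    ring)
  have hZ1 : (p : ℝ) ^ ((l - 1) * m) * v.re ∈ Z := by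
    have := (hi.int k _).1 hy.1
    rwa [sub_add_cancel] at this
  have hZ2 : (p : ℝ) ^ ((l - 1) * m + 1) * v.re ∈ Z := by
    have := (hi.int (p * k) _).1 hy.2
    convert this using 1
    push_cast
    ring
  have hld : (l : ℝ) ^ d ≤ (l : ℝ) ^ (2 * n) := pow_le_pow_right₀ hl1 hdn
  have hva : a ≤ v.im := by
    rw [hvim, le_div_iff₀ hlr]
    calc a * (l : ℝ) ^ d ≤ a * (l : ℝ) ^ (2 * n) := by gcongr
      _ = (l : ℝ) ^ (2 * n) * a := by ring
      _ ≤ z.im := hz1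
  have hvb : (p : ℝ) ^ ((l - 1) * m + 1) * v.im ≤ 2 * (l : ℝ) ^ (2 * n) * (p : ℝ) ^ (M + 1) * a := by
    have h5 : v.im ≤ 2 * (l : ℝ) ^ (2 * n) * a := by
      rw [hvim]
      exact (div_le_self hz0.le (one_le_pow₀ hl1)).trans hz2
    have h9 : (p : ℝ) ^ ((l - 1) * m + 1) ≤ (p : ℝ) ^ (M + 1) := pow_le_pow_right₀ hp1 (by omega)
    calc (p : ℝ) ^ ((l - 1) * m + 1) * v.im ≤ (p : ℝ) ^ (M + 1) * (2 * (l : ℝ) ^ (2 * n) * a) :=
          mul_le_mul h9 h5 (ha.le.trans hva) (by positivity)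
      _ = _ := by ring
  have h6 := (asc hU hp hT ha hδ hdead ((l - 1) * m) v hva hvb hZ1 hZ2).1
  have h7 := hTv t ht
  rw [← hv, div_le_iff₀ (by positivity)] at h7
  calc ‖U z‖ ≤ ‖U v‖ * (2 * l + 2 * K l) ^ d := h7
    _ ≤ ((K p + p + 1) ^ ((l - 1) * m) * δ) * (2 * l + 2 * K l) ^ d := by gcongr
    _ ≤ ((K p + p + 1) ^ M * δ) * (2 * l + 2 * K l) ^ (2 * n) := by gcongr
    _ = _ := by ring

/-- MAIN for one closed set -/
theorem band (hHIT : S_HITu) (hGROW : S_GROW) (K : ℕ → ℝ) (hK : ∀ p, 0 ≤ K p) {p : ℕ} (hp : p.Prime) {Z : Set ℝ}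
    (hc : IsClosed Z) (hi : Inv Z) (hT : Thick p Z) :
    ∃ q R C : ℝ, 1 ≤ q ∧ 2 * q ≤ R ∧ 0 < C ∧ ∀ U : ℂ → ℂ, Per K U → ∀ a δ : ℝ, 0 < a → 0 ≤ δ →
      Dead U Z a (R * a) δ → ∀ z : ℂ, q * a ≤ z.im → z.im ≤ 2 * q * a → ‖U z‖ ≤ C * δ := by
  obtain ⟨c, r, hr, hO⟩ := exists_O hp.two_le hc hi hT
  obtain ⟨q, R, C, hq, hR, hC, h⟩ := bandu hHIT hGROW K hK hp hr
  exact ⟨q, R, C, hq, hR, hC, h Z hi hT ⟨c, hO⟩⟩

/-- the half circle `[c, c + 1 / 2]` modulo one -/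
def Half (c : ℝ) : Set ℝ := {x | ∃ n : ℤ, c ≤ x + n ∧ x + n ≤ c + 1 / 2}

lemma inv_half (c : ℝ) : Inv (Half c) := by
  intro x
  constructor
  · rintro ⟨n, h1, h2⟩
    exact ⟨n - 1, by push_cast; linarith, by push_cast; linarith⟩
  · rintro ⟨n, h1, h2⟩
    exact ⟨n + 1, by push_cast; linarith, by push_cast; linarith⟩

lemma half_or (c x : ℝ) : x ∈ Half c ∨ x + 1 / 2 ∈ Half c := by
  have h1 := Int.floor_le (x - c)
  have h2 := Int.lt_floor_add_one (x - c)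
  rcases le_total (x - c - ⌊x - c⌋) (1 / 2) with h | h
  · left
    exact ⟨-⌊x - c⌋, by push_cast; linarith, by push_cast; linarith⟩
  · right
    exact ⟨-⌊x - c⌋ - 1, by push_cast; linarith, by push_cast; linarith⟩

lemma thick_half (c : ℝ) : Thick 2 (Half c) := by
  intro x i j hi hj h1 h2
  have h3 := half_or c x
  have h4 : x ∈ Half c ↔ x + 1 ∈ Half c := inv_half c x
  interval_cases i <;> interval_cases j
  · rfl
  · exfalso
    norm_num at h1 h2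
    rcases h3 with h | h
    · exact h1 h
    · exact h2 (by simpa using h)
  · exfalso
    norm_num at h1 h2
    rcases h3 with h | h
    · exact h2 h
    · exact h1 (by simpa using h)
  · rfl

lemma half_O (c : ℝ) : ∃ c' : ℝ, ∀ x : ℝ, |x - c'| < 1 / 16 → x ∈ Half c ∧ ((2 : ℕ) : ℝ) * x ∈ Half c := by
  have h1 := Int.le_ceil c
  have h2 := Int.ceil_lt_add_one c
  obtain ⟨n, hn⟩ : ∃ n : ℤ, n = ⌈c⌉ := ⟨_, rfl⟩
  rw [← hn] at h1 h2
  rcases le_total ((n : ℝ) - c) (1 / 2) with h | h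
  · -- u in [(n - c) / 2, (n - c) / 2 + 1 / 4]
    refine ⟨c + (n - c) / 2 + 1 / 8, fun x hx => ?_⟩
    rw [abs_lt] at hx
    refine ⟨⟨0, by push_cast; linarith, by push_cast; linarith⟩, ⟨-n, ?_, ?_⟩⟩ <;> push_cast <;> linarith
  · rcases le_total ((n : ℝ) - c) (3 / 4) with h' | h'
    · -- u in [(n - c) / 2, 1 / 2]
      refine ⟨c + (n - c) / 2 + 1 / 16, fun x hx => ?_⟩
      rw [abs_lt] at hx
      refine ⟨⟨0, by push_cast; linarith, by push_cast; linarith⟩, ⟨-n, ?_, ?_⟩⟩ <;> push_cast <;> linarith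
    · -- u in [0, (n - c - 1 / 2) / 2]
      refine ⟨c + 1 / 16, fun x hx => ?_⟩
      rw [abs_lt] at hx
      refine ⟨⟨0, by push_cast; linarith, by push_cast; linarith⟩, ⟨-n + 1, ?_, ?_⟩⟩ <;> push_cast <;> linarith

end Pool.Agent.D0H19.HS
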