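import Mathlib
import Pool.Agent.D0H19.HS.Main

/-!
# Project HS: doubling at `Re z = 1 / 2`

If `U` is small for `|Re z - 1 / 2| ≤ 1 / 6 + ε` at the heights `[a, b]` then, by the Hecke relations for `T_2` and `T_3`,
it is small for `|Re z - 1 / 2| ≤ 1 / 6 + 4 σ` at the heights `[4 a, 4 b / 9]`, if `σ ≤ ε / 2` and `9 σ ≤ 1 / 6 + ε`.
-/

set_option autoImplicit false

open Finset

namespace Pool.Agent.D0H19.HS

open Pool.Agent.N889.SN (Per)

/-- functions of the two coordinates with the relations for `T_2` and `T_3` -/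
structure RR (κ : ℝ) (V : ℝ → ℝ → ℂ) : Prop where
  per : ∀ x y : ℝ, 0 < y → V (x + 1) y = V x y
  t2 : ∃ c : ℂ, ‖c‖ ≤ κ ∧ ∀ x y : ℝ, 0 < y → V (2 * x) (2 * y) + V (x / 2) (y / 2) + V ((x + 1) / 2) (y / 2) = c * V x y
  t3 : ∃ c : ℂ, ‖c‖ ≤ κ ∧ ∀ x y : ℝ, 0 < y →
    V (3 * x) (3 * y) + V (x / 3) (y / 3) + V ((x + 1) / 3) (y / 3) + V ((x + 2) / 3) (y / 3) = c * V x y

lemma rr_of_per {K : ℕ → ℝ} {U : ℂ → ℂ} (h : Per K U) : RR (max (K 2) (K 3)) (fun x y => U ⟨x, y⟩) := by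
  refine ⟨fun x y hy => ?_, ?_, ?_⟩
  · have := h.per ⟨x, y⟩ hy
    rw [← this]
    congr 1
    apply Complex.ext <;> simp
  · obtain ⟨c, hc, hr⟩ := h.hecke 2 Nat.prime_two
    refine ⟨c, hc.trans (le_max_left _ _), fun x y hy => ?_⟩
    rw [← hr ⟨x, y⟩ hy, Finset.sum_range_succ, Finset.sum_range_one, add_assoc]
    congr 1
    · congr 1
      apply Complex.ext <;> simp
    · congr 1
      · congr 1
        apply Complex.ext <;> simp [Complex.div_re, Complex.div_im, Complex.normSq_apply] <;> ring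
      · congr 1
        apply Complex.ext <;> simp [Complex.div_re, Complex.div_im, Complex.normSq_apply] <;> ring
  · obtain ⟨c, hc, hr⟩ := h.hecke 3 Nat.prime_three
    refine ⟨c, hc.trans (le_max_right _ _), fun x y hy => ?_⟩
    rw [← hr ⟨x, y⟩ hy, Finset.sum_range_succ, Finset.sum_range_succ, Finset.sum_range_one, ← add_assoc, ← add_assoc]
    congr 1
    · congr 1
      · congr 1
        · congr 1
          apply Complex.ext <;> simp
        · congr 1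
          apply Complex.ext <;> simp [Complex.div_re, Complex.div_im, Complex.normSq_apply] <;> ring
      · congr 1
        apply Complex.ext <;> simp [Complex.div_re, Complex.div_im, Complex.normSq_apply] <;> ring
    · congr 1
      apply Complex.ext <;> simp [Complex.div_re, Complex.div_im, Complex.normSq_apply] <;> ring

/-- small for `|x - 1 / 2| ≤ 1 / 6 + ε`, `a ≤ y ≤ b` -/
def Sm (V : ℝ → ℝ → ℂ) (t a b δ : ℝ) : Prop := ∀ x y : ℝ, |x - 1 / 2| ≤ t → a ≤ y → y ≤ b → ‖V x y‖ ≤ δ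

lemma solve3 {A B C D c : ℂ} {κ a b d : ℝ} (h : A + B + C = c * D) (hc : ‖c‖ ≤ κ) (hA : ‖A‖ ≤ a) (hC : ‖C‖ ≤ b)
    (hD : ‖D‖ ≤ d) : ‖B‖ ≤ κ * d + a + b := by
  have hκ : 0 ≤ κ := (norm_nonneg c).trans hc
  have e : B = c * D - A - C := by rw [← h]; ring
  rw [e]
  calc ‖c * D - A - C‖ ≤ ‖c * D‖ + ‖A‖ + ‖C‖ := (norm_sub_le _ _).trans (by gcongr; exact norm_sub_le _ _)
    _ ≤ κ * d + a + b := by rw [norm_mul]; gcongr

lemma solve4 {A B C E D c : ℂ} {κ a b e d : ℝ} (h : A + B + C + E = c * D) (hc : ‖c‖ ≤ κ) (hA : ‖A‖ ≤ a) (hC : ‖C‖ ≤ b)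
    (hE : ‖E‖ ≤ e) (hD : ‖D‖ ≤ d) : ‖B‖ ≤ κ * d + a + b + e := by
  have hκ : 0 ≤ κ := (norm_nonneg c).trans hc
  have e' : B = c * D - A - C - E := by rw [← h]; ring
  rw [e']
  calc ‖c * D - A - C - E‖ ≤ ‖c * D‖ + ‖A‖ + ‖C‖ + ‖E‖ :=
        (norm_sub_le _ _).trans (by gcongr; exact (norm_sub_le _ _).trans (by gcongr; exact norm_sub_le _ _))
    _ ≤ κ * d + a + b + e := by rw [norm_mul]; gcongr

lemma dbl {κ : ℝ} {V : ℝ → ℝ → ℂ} (h : RR κ V) {ε σ a b δ : ℝ} (ha : 0 < a) (hδ : 0 ≤ δ) (hσ : 0 ≤ σ) (hσε : σ ≤ ε / 2)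
    (hσ9 : 9 * σ ≤ 1 / 6 + ε) (hd : Sm V (1 / 6 + ε) a b δ) :
    Sm V (1 / 6 + 4 * σ) (4 * a) (4 / 9 * b) ((3 * κ + 5) * δ) := by
  obtain ⟨c2, hc2, h2⟩ := h.t2
  obtain ⟨c3, hc3, h3⟩ := h.t3
  have hκ : 0 ≤ κ := (norm_nonneg c2).trans hc2
  -- step A
  have A1 : ∀ s y : ℝ, -σ ≤ s → s ≤ σ / 2 → a ≤ y → 4 * y ≤ b → ‖V (1 / 6 + s) y‖ ≤ (κ + 2) * δ := by
    intro s y hs1 hs2 hy1 hy2
    have hr := h2 (1 / 3 + 2 * s) (2 * y) (by linarith)
    have e1 : (1 / 3 + 2 * s) / 2 = 1 / 6 + s := by ring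
    have e2 : (1 / 3 + 2 * s + 1) / 2 = 2 / 3 + s := by ring
    have e3 : 2 * y / 2 = y := by ring
    rw [e1, e2, e3] at hr
    refine (solve3 hr hc2 (hd _ _ ?_ ?_ ?_) (hd _ _ ?_ ?_ ?_) (hd _ _ ?_ ?_ ?_)).trans (le_of_eq (by ring)) <;>
      first | (rw [abs_le]; constructor <;> linarith) | linarith
  have A2 : ∀ s y : ℝ, -(σ / 2) ≤ s → s ≤ σ → a ≤ y → 4 * y ≤ b → ‖V (5 / 6 + s) y‖ ≤ (κ + 2) * δ := by
    intro s y hs1 hs2 hy1 hy2
    have hr := h2 (2 / 3 + 2 * s) (2 * y) (by linarith)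
    have e1 : (2 / 3 + 2 * s) / 2 = 1 / 3 + s := by ring
    have e2 : (2 / 3 + 2 * s + 1) / 2 = 5 / 6 + s := by ring
    have e3 : 2 * y / 2 = y := by ring
    have e4 : 2 * (2 / 3 + 2 * s) = (1 / 3 + 4 * s) + 1 := by ring
    rw [e1, e2, e3, e4, h.per _ _ (by linarith), add_right_comm] at hr
    refine (solve3 hr hc2 (hd _ _ ?_ ?_ ?_) (hd _ _ ?_ ?_ ?_) (hd _ _ ?_ ?_ ?_)).trans (le_of_eq (by ring)) <;>
      first | (rw [abs_le]; constructor <;> linarith) | linarith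
  -- step B
  have relB : ∀ s y : ℝ, 0 < y → V (1 / 2 + 9 * s) (9 * y) + V (1 / 6 + s) y + V (1 / 2 + s) y + V (5 / 6 + s) y =
      c3 * V (1 / 2 + 3 * s) (3 * y) := by
    intro s y hy
    have hr := h3 (1 / 2 + 3 * s) (3 * y) (by linarith)
    have e1 : (1 / 2 + 3 * s) / 3 = 1 / 6 + s := by ring
    have e2 : (1 / 2 + 3 * s + 1) / 3 = 1 / 2 + s := by ring
    have e3 : (1 / 2 + 3 * s + 2) / 3 = 5 / 6 + s := by ring
    have e4 : 3 * y / 3 = y := by ring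
    have e5 : 3 * (1 / 2 + 3 * s) = (1 / 2 + 9 * s) + 1 := by ring
    have e6 : 3 * (3 * y) = 9 * y := by ring
    rwa [e1, e2, e3, e4, e5, h.per _ _ (by linarith), e6] at hr
  have B1 : ∀ s y : ℝ, -σ ≤ s → s ≤ σ → a ≤ y → 9 * y ≤ b → ‖V (5 / 6 + s) y‖ ≤ (2 * κ + 4) * δ := by
    intro s y hs1 hs2 hy1 hy2
    rcases le_total s (σ / 2) with hs | hs
    · have hr := relB s y (by linarith)
      have e : V (1 / 2 + 9 * s) (9 * y) + V (5 / 6 + s) y + V (1 / 2 + s) y + V (1 / 6 + s) y =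
          c3 * V (1 / 2 + 3 * s) (3 * y) := by rw [← hr]; ring
      refine (solve4 e hc3 (hd _ _ ?_ ?_ ?_) (hd _ _ ?_ ?_ ?_) (A1 s y hs1 hs hy1 (by linarith))
        (hd _ _ ?_ ?_ ?_)).trans (le_of_eq (by ring)) <;>
        first | (rw [abs_le]; constructor <;> linarith) | linarith
    · refine (A2 s y (by linarith) hs2 hy1 (by linarith)).trans ?_
      nlinarith
  have B2 : ∀ s y : ℝ, -σ ≤ s → s ≤ σ → a ≤ y → 9 * y ≤ b → ‖V (1 / 6 + s) y‖ ≤ (2 * κ + 4) * δ := by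
    intro s y hs1 hs2 hy1 hy2
    rcases le_total (-(σ / 2)) s with hs | hs
    · have hr := relB s y (by linarith)
      refine (solve4 hr hc3 (hd _ _ ?_ ?_ ?_) (hd _ _ ?_ ?_ ?_) (A2 s y hs hs2 hy1 (by linarith))
        (hd _ _ ?_ ?_ ?_)).trans (le_of_eq (by ring)) <;>
        first | (rw [abs_le]; constructor <;> linarith) | linarith
    · refine (A1 s y hs1 (by linarith) hy1 (by linarith)).trans ?_
      nlinarith
  -- step C
  intro x y hx hy1 hy2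
  have hy0 : 0 < y := by linarith
  have hδ' : δ ≤ (3 * κ + 5) * δ := by nlinarith
  rw [abs_le] at hx
  rcases le_total (1 / 3 : ℝ) x with h1 | h1
  · rcases le_total x (2 / 3 : ℝ) with h2' | h2'
    · refine (hd x y ?_ (by linarith) (by linarith)).trans hδ'
      rw [abs_le]
      constructor <;> linarith
    · -- x = 2/3 + 2 s
      obtain ⟨s, hs⟩ : ∃ s, s = (x - 2 / 3) / 2 := ⟨_, rfl⟩
      have hx' : x = 2 * (1 / 3 + s) := by rw [hs]; ring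
      have hr := h2 (1 / 3 + s) (y / 2) (by linarith)
      have e1 : (1 / 3 + s) / 2 = 1 / 6 + s / 2 := by ring
      have e2 : (1 / 3 + s + 1) / 2 = 2 / 3 + s / 2 := by ring
      have e3 : 2 * (y / 2) = y := by ring
      have e4 : y / 2 / 2 = y / 4 := by ring
      rw [e1, e2, e3, e4, ← hx'] at hr
      have e : V (1 / 6 + s / 2) (y / 4) + V x y + V (2 / 3 + s / 2) (y / 4) = c2 * V (1 / 3 + s) (y / 2) := by
        rw [← hr]; ring
      refine (solve3 e hc2 (B2 (s / 2) (y / 4) ?_ ?_ ?_ ?_) (hd _ _ ?_ ?_ ?_) (hd _ _ ?_ ?_ ?_)).trans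
        (le_of_eq (by ring)) <;>
        first | (rw [abs_le]; constructor <;> linarith) | linarith
  · -- x = 1/3 - 2 s
    obtain ⟨s, hs⟩ : ∃ s, s = (1 / 3 - x) / 2 := ⟨_, rfl⟩
    have hx' : 2 * (2 / 3 - s) = x + 1 := by rw [hs]; ring
    have hr := h2 (2 / 3 - s) (y / 2) (by linarith)
    have e1 : (2 / 3 - s) / 2 = 1 / 3 - s / 2 := by ring
    have e2 : (2 / 3 - s + 1) / 2 = 5 / 6 + -(s / 2) := by ring
    have e3 : 2 * (y / 2) = y := by ring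
    have e4 : y / 2 / 2 = y / 4 := by ring
    rw [e1, e2, e3, e4, hx', h.per _ _ hy0] at hr
    have e : V (1 / 3 - s / 2) (y / 4) + V x y + V (5 / 6 + -(s / 2)) (y / 4) = c2 * V (2 / 3 - s) (y / 2) := by
      rw [← hr]; ring
    refine (solve3 e hc2 (hd _ _ ?_ ?_ ?_) (B1 (-(s / 2)) (y / 4) ?_ ?_ ?_ ?_) (hd _ _ ?_ ?_ ?_)).trans
      (le_of_eq (by ring)) <;>
      first | (rw [abs_le]; constructor <;> linarith) | linarith

lemma Sm.mono {V : ℝ → ℝ → ℂ} {t a b δ t' a' b' δ' : ℝ} (h : Sm V t a b δ) (ht : t' ≤ t) (ha : a ≤ a') (hb : b' ≤ b)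
    (hδ : δ ≤ δ') : Sm V t' a' b' δ' := fun x y hx h1 h2 => (h x y (hx.trans ht) (ha.trans h1) (h2.trans hb)).trans hδ

lemma dbl_iter {κ : ℝ} {V : ℝ → ℝ → ℂ} (h : RR κ V) (hκ : 0 ≤ κ) (n : ℕ) : ∀ ε a b δ : ℝ, 0 < ε → 0 < a → 0 ≤ b → 0 ≤ δ →
    1 / 24 ≤ 2 ^ n * ε → Sm V (1 / 6 + ε) a b δ →
    Sm V (1 / 4) (4 ^ (n + 1) * a) ((4 / 9) ^ (n + 1) * b) ((3 * κ + 5) ^ (n + 1) * δ) := by
  have base : ∀ ε a b δ : ℝ, 0 < ε → 0 < a → 0 ≤ δ → 1 / 24 ≤ ε → Sm V (1 / 6 + ε) a b δ →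
      Sm V (1 / 4) (4 * a) (4 / 9 * b) ((3 * κ + 5) * δ) := by
    intro ε a b δ hε ha hδ h1 h2
    have h3 := dbl h (ε := 1 / 24) (σ := 1 / 48) ha hδ (by norm_num) (by norm_num) (by norm_num)
      (h2.mono (by linarith) le_rfl le_rfl le_rfl)
    exact h3.mono (by norm_num) le_rfl le_rfl le_rfl
  induction n with
  | zero =>
    intro ε a b δ hε ha hb hδ h1 h2
    simpa using base ε a b δ hε ha hδ (by simpa using h1) h2
  | succ n ih =>
    intro ε a b δ hε ha hb hδ h1 h2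
    rcases le_total (1 / 24) ε with h3 | h3
    · refine (base ε a b δ hε ha hδ h3 h2).mono le_rfl ?_ ?_ ?_
      · have : (4 : ℝ) ≤ 4 ^ (n + 1 + 1) := by
          calc (4 : ℝ) = 4 ^ 1 := by norm_num
            _ ≤ 4 ^ (n + 1 + 1) := pow_le_pow_right₀ (by norm_num) (by omega)
        gcongr
      · have : ((4 : ℝ) / 9) ^ (n + 1 + 1) ≤ 4 / 9 := by
          calc ((4 : ℝ) / 9) ^ (n + 1 + 1) ≤ (4 / 9) ^ 1 := pow_le_pow_of_le_one (by norm_num) (by norm_num) (by omega)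
            _ = 4 / 9 := by norm_num
        gcongr
      · have : (3 * κ + 5) ≤ (3 * κ + 5) ^ (n + 1 + 1) := le_self_pow₀ (by linarith) (by omega)
        gcongr
    · have h4 := dbl h (ε := ε) (σ := ε / 2) ha hδ (by linarith) le_rfl (by linarith) h2
      have h5 := ih (2 * ε) (4 * a) (4 / 9 * b) ((3 * κ + 5) * δ) (by linarith) (by linarith) (by positivity)
        (by positivity) (by rw [pow_succ] at h1; linarith) (h4.mono (by linarith) le_rfl le_rfl le_rfl)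
      refine h5.mono le_rfl (le_of_eq (by ring)) (le_of_eq (by ring)) (le_of_eq (by ring))

/-- `cos (2 π x) ≤ 0`: the half `1 / 4 ≤ x ≤ 3 / 4` modulo one -/
def ZH : Set ℝ := {x | Real.cos (2 * Real.pi * x) ≤ 0}

lemma isClosed_ZH : IsClosed ZH := isClosed_le (by fun_prop) continuous_const

lemma inv_ZH : Inv ZH := by
  intro x
  show Real.cos (2 * Real.pi * x) ≤ 0 ↔ Real.cos (2 * Real.pi * (x + 1)) ≤ 0
  rw [mul_add, mul_one, Real.cos_add_two_pi]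

lemma thick_ZH : Thick 2 ZH := by
  intro x i j hi hj h1 h2
  have h1' : 0 < Real.cos (2 * Real.pi * (x + i / (2 : ℕ))) := not_le.1 h1
  have h2' : 0 < Real.cos (2 * Real.pi * (x + j / (2 : ℕ))) := not_le.1 h2
  have e : Real.cos (2 * Real.pi * (x + 1 / 2)) = - Real.cos (2 * Real.pi * x) := by
    rw [show 2 * Real.pi * (x + 1 / 2) = 2 * Real.pi * x + Real.pi by ring, Real.cos_add_pi]
  interval_cases i <;> interval_cases j
  · rfl
  · norm_num at h1' h2'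
    rw [e] at h2'
    linarith
  · norm_num at h1' h2'
    rw [e] at h1'
    linarith
  · rfl

lemma mem_ZH {x : ℝ} (hx : x ∈ ZH) : ∃ n : ℤ, |x - n - 1 / 2| ≤ 1 / 4 := by
  refine ⟨⌊x⌋, ?_⟩
  have hx' : Real.cos (2 * Real.pi * (x - ⌊x⌋)) ≤ 0 := by
    have := (inv_ZH.int (-⌊x⌋) x).1 hx
    have e : x + ((-⌊x⌋ : ℤ) : ℝ) = x - ⌊x⌋ := by push_cast; ring
    rw [e] at this
    exact this
  have h0 : 0 ≤ x - ⌊x⌋ := by linarith [Int.floor_le x]
  have h1 : x - ⌊x⌋ < 1 := by linarith [Int.lt_floor_add_one x]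
  set t := x - ⌊x⌋ with ht
  have hpi := Real.pi_pos
  rw [abs_le]
  constructor
  · by_contra hcon
    push Not at hcon
    have : 0 < Real.cos (2 * Real.pi * t) := Real.cos_pos_of_mem_Ioo ⟨by nlinarith, by nlinarith⟩
    linarith
  · by_contra hcon
    push Not at hcon
    have e : Real.cos (2 * Real.pi * t) = Real.cos (2 * Real.pi * (1 - t)) := by
      rw [show 2 * Real.pi * (1 - t) = 2 * Real.pi - 2 * Real.pi * t by ring, Real.cos_two_pi_sub]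
    have : 0 < Real.cos (2 * Real.pi * (1 - t)) := Real.cos_pos_of_mem_Ioo ⟨by nlinarith, by nlinarith⟩
    linarith

/-- the box of width `1 / 3 + 2 ε` around `Re z = 1 / 2` -/
theorem band_third (hHIT : S_HITu) (hGROW : S_GROW) (K : ℕ → ℝ) (hK : ∀ p, 0 ≤ K p) {ε : ℝ} (hε : 0 < ε) :
    ∃ q R C : ℝ, 1 ≤ q ∧ 2 * q ≤ R ∧ 0 < C ∧ ∀ U : ℂ → ℂ, Per K U → ∀ a δ : ℝ, 0 < a → 0 ≤ δ →
      (∀ w : ℂ, |w.re - 1 / 2| ≤ 1 / 6 + ε → a ≤ w.im → w.im ≤ R * a → ‖U w‖ ≤ δ) →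
      ∀ z : ℂ, q * a ≤ z.im → z.im ≤ 2 * q * a → ‖U z‖ ≤ C * δ := by
  obtain ⟨q, R, C, hq, hR, hC, hband⟩ := band hHIT hGROW K hK Nat.prime_two isClosed_ZH inv_ZH thick_ZH
  obtain ⟨n, hn⟩ := pow_unbounded_of_one_lt (1 / 24 / ε) (by norm_num : (1 : ℝ) < 2)
  have hn' : 1 / 24 ≤ 2 ^ n * ε := by
    rw [div_lt_iff₀ hε] at hn
    exact hn.le
  set κ := max (K 2) (K 3) with hκdef
  have hκ : 0 ≤ κ := (hK 2).trans (le_max_left _ _)
  have h49 : ((4 : ℝ) / 9) ^ (n + 1) * (9 / 4) ^ (n + 1) = 1 := by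
    rw [← mul_pow]
    norm_num
  have h94 : (1 : ℝ) ≤ (9 / 4) ^ (n + 1) := one_le_pow₀ (by norm_num)
  have h41 : (1 : ℝ) ≤ 4 ^ (n + 1) := one_le_pow₀ (by norm_num)
  refine ⟨4 ^ (n + 1) * q, 4 ^ (n + 1) * (9 / 4) ^ (n + 1) * R, C * (3 * κ + 5) ^ (n + 1), ?_, ?_, by positivity, ?_⟩
  · nlinarith
  · calc 2 * (4 ^ (n + 1) * q) = 4 ^ (n + 1) * 1 * (2 * q) := by ring
      _ ≤ 4 ^ (n + 1) * (9 / 4) ^ (n + 1) * R := by gcongr
  intro U hU a δ ha hδ hd z hz1 hz2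
  have hRR := rr_of_per hU
  have hRpos : 0 < R := by linarith
  have hb0 : 0 ≤ 4 ^ (n + 1) * (9 / 4) ^ (n + 1) * R * a := by positivity
  have hsm := dbl_iter hRR hκ n ε a (4 ^ (n + 1) * (9 / 4) ^ (n + 1) * R * a) δ hε ha hb0 hδ hn'
    (fun x y hx h1 h2 => hd ⟨x, y⟩ hx h1 h2)
  have hdead : Dead U ZH (4 ^ (n + 1) * a) (R * (4 ^ (n + 1) * a)) ((3 * κ + 5) ^ (n + 1) * δ) := by
    intro w hw h1 h2
    have hw0 : 0 < w.im := lt_of_lt_of_le (by positivity) h1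
    obtain ⟨k, hk⟩ := mem_ZH hw
    have h3 := hsm (w.re - k) w.im hk h1 (h2.trans (le_of_eq (by
      calc R * (4 ^ (n + 1) * a) = (((4 : ℝ) / 9) ^ (n + 1) * (9 / 4) ^ (n + 1)) * (R * (4 ^ (n + 1) * a)) := by
            rw [h49, one_mul]
        _ = _ := by ring)))
    have e : U w = U ⟨w.re - k, w.im⟩ := by
      have h4 := hU.int (-k) hw0
      rw [← h4]
      congr 1
      apply Complex.ext
      · simp [sub_eq_add_neg]
      · simp
    rw [e]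
    exact h3
  have h5 := hband U hU (4 ^ (n + 1) * a) _ (by positivity) (by positivity) hdead z
    (by linarith) (by linarith)
  linarith

end Pool.Agent.D0H19.HS
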