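import Mathlib
import Pool.Agent.D0H19.HS.Stm

/-!
# Project HS: GROW
-/

set_option autoImplicit false

open Finset

namespace Pool.Agent.D0H19.HS

open Pool.Agent.N889.SN (Per)

lemma digit {m t j : ℕ} (ht : t < m) : (t + j * m) % m = t ∧ (t + j * m) / m = j := by
  constructor
  · rw [Nat.add_mul_mod_self_right, Nat.mod_eq_of_lt ht]
  · rw [Nat.add_mul_div_right _ _ (by omega : 0 < m), Nat.div_eq_of_lt ht, zero_add]

lemma digit_lt {m t j l : ℕ} (ht : t < m) (hj : j < l) : t + j * m < l * m := by
  calc t + j * m < m + j * m := by omega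
    _ = (j + 1) * m := by ring
    _ ≤ l * m := Nat.mul_le_mul_right _ (by omega)

theorem t_GROW : S_GROW := by
  classical
  intro K U hU l hl z A hz hA hAz n
  obtain ⟨c, hc, hrel⟩ := hU.hecke l hl
  have hK : 0 ≤ K l := (norm_nonneg c).trans hc
  have hl2 : (2 : ℝ) ≤ l := by exact_mod_cast hl.two_le
  have hl0 : (0 : ℝ) < l := by linarith
  have hlc : (l : ℂ) ≠ 0 := by exact_mod_cast hl.ne_zero
  set κ : ℝ := 2 * l + 2 * K l with hκ
  have hκ0 : 0 < κ := by linarith
  let v : ℕ → ℕ → ℂ := fun d t => (z + t) / (l : ℂ) ^ d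
  let S : ℕ → Finset ℕ := fun d => (range (l ^ d)).filter (fun t => A / κ ^ d ≤ ‖U (v d t)‖)
  have hvim : ∀ d t, 0 < (v d t).im := by
    intro d t
    have e : (v d t).im = z.im / (l : ℝ) ^ d := by
      show ((z + t) / (l : ℂ) ^ d).im = _
      have e1 : (l : ℂ) ^ d = (((l : ℝ) ^ d : ℝ) : ℂ) := by push_cast; rfl
      rw [e1, Complex.div_ofReal_im]
      simp
    rw [e]
    positivity
  have hchild : ∀ d t j : ℕ, v (d + 1) (t + j * l ^ d) = (v d t + j) / l := by
    intro d t j
    show (z + ((t + j * l ^ d : ℕ) : ℂ)) / (l : ℂ) ^ (d + 1) = ((z + t) / (l : ℂ) ^ d + j) / l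
    push_cast
    field_simp
    ring
  have key : ∀ d, l * (S d).card ≤ (S (d + 1)).card + (S (d + 2)).card := by
    intro d
    let P := S d ×ˢ range l
    let good : ℕ × ℕ → Prop := fun q => A / κ ^ (d + 1) ≤ ‖U (v (d + 1) (q.1 + q.2 * l ^ d))‖
    have hP : P.card = (S d).card * l := by rw [card_product, card_range]
    have hsplit : P.card = (P.filter good).card + (P.filter (fun q => ¬ good q)).card :=
      (card_filter_add_card_filter_not good).symm
    have h1 : (P.filter good).card ≤ (S (d + 1)).card := by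
      refine card_le_card_of_injOn (fun q => q.1 + q.2 * l ^ d) ?_ ?_
      · intro q hq
        rw [mem_coe, mem_filter, mem_product, mem_filter, mem_range, mem_range] at hq
        rw [mem_coe, mem_filter, mem_range]
        refine ⟨?_, hq.2⟩
        rw [pow_succ, mul_comm]
        exact digit_lt hq.1.1.1 hq.1.2
      · intro q hq q' hq' e
        rw [mem_coe, mem_filter, mem_product, mem_filter, mem_range, mem_range] at hq hq'
        have a1 := digit (j := q.2) hq.1.1.1
        have a2 := digit (j := q'.2) hq'.1.1.1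
        simp only at e
        rw [e] at a1
        exact Prod.ext (a1.1.symm.trans a2.1) (a1.2.symm.trans a2.2)
    have hex : ∀ q ∈ P.filter (fun q => ¬ good q), ∃ i < l,
        A / κ ^ (d + 2) ≤ ‖U (v (d + 2) (q.1 + q.2 * l ^ d + i * l ^ (d + 1)))‖ := by
      intro q hq
      rw [mem_filter, mem_product, mem_filter, mem_range, mem_range] at hq
      obtain ⟨⟨⟨-, hal⟩, -⟩, hng⟩ := hq
      have hng' : ‖U (v (d + 1) (q.1 + q.2 * l ^ d))‖ < A / κ ^ (d + 1) := not_le.1 hng
      by_contra hcon
      push Not at hcon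
      set w := v (d + 1) (q.1 + q.2 * l ^ d) with hw
      have h5 := hrel w (hvim _ _)
      have e1 : (l : ℂ) * w = v d q.1 + (q.2 : ℕ) := by
        rw [hw, hchild]
        field_simp
      have e2 : U (l * w) = U (v d q.1) := by
        rw [e1, hU.nat q.2 (hvim _ _)]
      have h6 : ‖∑ b ∈ range l, U ((w + b) / l)‖ ≤ l * (A / κ ^ (d + 2)) := by
        refine (norm_sum_le_of_le _ (f := fun b : ℕ => U ((w + b) / l)) (n := fun _ => A / κ ^ (d + 2)) ?_).trans
          (le_of_eq (by rw [sum_const, card_range, nsmul_eq_mul]))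
        intro i hi
        rw [mem_range] at hi
        have h7 := hcon i hi
        rw [hchild (d + 1)] at h7
        exact h7.le
      have h8 : U (v d q.1) = c * U w - ∑ b ∈ range l, U ((w + b) / l) := by
        rw [← h5, e2]
        ring
      have h9 : ‖U (v d q.1)‖ ≤ K l * (A / κ ^ (d + 1)) + l * (A / κ ^ (d + 2)) := by
        rw [h8]
        refine (norm_sub_le _ _).trans (add_le_add ?_ h6)
        rw [norm_mul]
        exact mul_le_mul hc hng'.le (norm_nonneg _) hK
      have hκd : 0 < κ ^ d := by positivity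
      have e3 : A / κ ^ d = κ * (A / κ ^ (d + 1)) := by
        rw [pow_succ]
        field_simp
      have e4 : A / κ ^ (d + 1) = κ * (A / κ ^ (d + 2)) := by
        rw [pow_succ κ (d + 1)]
        field_simp
      have hX : 0 < A / κ ^ (d + 2) := by positivity
      have hY : 0 < A / κ ^ (d + 1) := by positivity
      -- l * (A / κ ^ (d+2)) ≤ (1/2) A / κ^(d+1)
      have h10 : l * (A / κ ^ (d + 2)) ≤ A / κ ^ (d + 1) / 2 := by
        rw [e4]
        nlinarith
      have h11 : K l * (A / κ ^ (d + 1)) + l * (A / κ ^ (d + 2)) < A / κ ^ d := by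
        rw [e3]
        nlinarith
      linarith
    choose! i hi hi' using hex
    have h2 : (P.filter (fun q => ¬ good q)).card ≤ (S (d + 2)).card := by
      refine card_le_card_of_injOn (fun q => q.1 + q.2 * l ^ d + i q * l ^ (d + 1)) ?_ ?_
      · intro q hq
        have hq' := hi' q (mem_coe.1 hq)
        have hil := hi q (mem_coe.1 hq)
        rw [mem_coe, mem_filter, mem_product, mem_filter, mem_range, mem_range] at hq
        rw [mem_coe, mem_filter, mem_range]
        refine ⟨?_, hq'⟩
        rw [pow_succ l (d + 1), mul_comm]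
        refine digit_lt ?_ hil
        rw [pow_succ, mul_comm (l ^ d) l]
        exact digit_lt hq.1.1.1 hq.1.2
      · intro q hq q' hq' e
        rw [mem_coe, mem_filter, mem_product, mem_filter, mem_range, mem_range] at hq hq'
        have b1 : q.1 + q.2 * l ^ d < l ^ (d + 1) := by
          rw [pow_succ, mul_comm (l ^ d) l]
          exact digit_lt hq.1.1.1 hq.1.2
        have b2 : q'.1 + q'.2 * l ^ d < l ^ (d + 1) := by
          rw [pow_succ, mul_comm (l ^ d) l]
          exact digit_lt hq'.1.1.1 hq'.1.2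
        have a1 := (digit (j := i q) b1).1
        have a2 := (digit (j := i q') b2).1
        simp only at e
        rw [e, a2] at a1
        have a3 := digit (j := q.2) hq.1.1.1
        have a4 := digit (j := q'.2) hq'.1.1.1
        rw [← a1] at a3
        exact Prod.ext (a3.1.symm.trans a4.1) (a3.2.symm.trans a4.2)
    rw [mul_comm, ← hP, hsplit]
    exact add_le_add h1 h2
  have main : ∀ n : ℕ, ∃ d ≤ 2 * n, ((l : ℝ) / 2) ^ n ≤ (S d).card := by
    intro n
    induction n with
    | zero =>
      refine ⟨0, le_rfl, ?_⟩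
      have h0 : (0 : ℕ) ∈ S 0 := by
        show (0 : ℕ) ∈ (range (l ^ 0)).filter _
        rw [mem_filter, mem_range]
        refine ⟨by simp, ?_⟩
        show A / κ ^ 0 ≤ ‖U ((z + ((0 : ℕ) : ℂ)) / (l : ℂ) ^ 0)‖
        simpa using hAz
      have : 1 ≤ (S 0).card := card_pos.2 ⟨0, h0⟩
      rw [pow_zero]
      exact_mod_cast this
    | succ n ih =>
      obtain ⟨d, hd, hS⟩ := ih
      have hk : (l : ℝ) * (S d).card ≤ (S (d + 1)).card + (S (d + 2)).card := by exact_mod_cast key d
      have hp : ((l : ℝ) / 2) ^ (n + 1) ≤ l * (S d).card / 2 := by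
        rw [pow_succ]
        nlinarith
      rcases le_total ((S (d + 1)).card : ℝ) ((S (d + 2)).card : ℝ) with h | h
      · exact ⟨d + 2, by omega, by linarith⟩
      · exact ⟨d + 1, by omega, by linarith⟩
  obtain ⟨d, hd, hS⟩ := main n
  exact ⟨d, hd, S d, filter_subset _ _, hS, fun t ht => (mem_filter.1 ht).2⟩

end Pool.Agent.D0H19.HS
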