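import Mathlib
import Pool.Agent.D0H19.HS.Dbl
import Pool.Agent.D0H19.HS.Grow
import Pool.Agent.D0H29.HB.Control

/-!
# Project HS: from the band to all points
-/

set_option autoImplicit false

open Finset

namespace Pool.Agent.D0H19.HS

open Pool.Agent.N889.SN (Per KK KK_nonneg isPer)
open Pool.Agent.Results.MP_8fded1_nt.EllipticPointIsHarmless (IsHeckeMaass SupNormBound moeb)

/-- the band `q Y ≤ Im w ≤ 2 q Y` controls all points -/
lemma ctrl : ∃ A : ℕ, ∀ q Y : ℝ, 1 ≤ q → 0 < Y → ∃ C : ℝ, 0 < C ∧ ∀ (U : ℂ → ℂ) (T : ℝ), IsHeckeMaass U T →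
    ∀ z : ℂ, 0 < z.im → ∃ w : ℂ, q * Y ≤ w.im ∧ w.im ≤ 2 * q * Y ∧ ‖U z‖ ≤ C * (z.im + 1 / z.im) ^ A * ‖U w‖ := by
  obtain ⟨A, hA⟩ := Pool.Agent.D0H29.HB.controlled
  refine ⟨A, fun q Y hq hY => ?_⟩
  have hqY : 0 < q * Y := by positivity
  obtain ⟨C, hC, h⟩ := hA {w : ℂ | q * Y < w.im ∧ w.im < 2 * q * Y}
    ((isOpen_lt continuous_const Complex.continuous_im).inter (isOpen_lt Complex.continuous_im continuous_const))
    (3 / 2 * (q * Y)) (by positivity) (fun x => ⟨1, by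
      have e : moeb 1 ((x : ℂ) + ((3 / 2 * (q * Y) : ℝ) : ℂ) * Complex.I) =
          (x : ℂ) + ((3 / 2 * (q * Y) : ℝ) : ℂ) * Complex.I := by
        unfold moeb
        simp
      rw [e]
      have e2 : ((x : ℂ) + ((3 / 2 * (q * Y) : ℝ) : ℂ) * Complex.I).im = 3 / 2 * (q * Y) := by
        simp
      constructor
      · rw [e2]; linarith
      · rw [e2]; linarith⟩)
  refine ⟨C, hC, fun U T hU z hz => ?_⟩
  obtain ⟨w, hw, -, h1⟩ := h U T hU z hz
  exact ⟨w, hw.1.le, hw.2.le, h1⟩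

end Pool.Agent.D0H19.HS
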