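import Mathlib
import Pool.Agent.D0H19.HS.Fin

/-!
# Project HS: the statements for sets of real parts
-/

set_option autoImplicit false

open Finset

namespace Pool.Agent.D0H19.HS

open Pool.Agent.N889.SN (Per KK KK_nonneg isPer)
open Pool.Agent.Results.MP_8fded1_nt.EllipticPointIsHarmless (IsHeckeMaass SupNormBound moeb)

lemma pick {S : Set ℂ} (hne : S.Nonempty) {U : ℂ → ℂ} {w₁ : ℂ} {C : ℝ} (hC : 0 < C)
    (h : ∀ δ : ℝ, 0 ≤ δ → (∀ w ∈ S, ‖U w‖ ≤ δ) → ‖U w₁‖ ≤ C * δ) : ∃ w ∈ S, ‖U w₁‖ ≤ 2 * C * ‖U w‖ := by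
  by_contra hcon
  push Not at hcon
  have h1 := h (‖U w₁‖ / (2 * C)) (by positivity) (fun w hw => by
    rw [le_div_iff₀ (by positivity)]
    have := hcon w hw
    linarith)
  have h2 : C * (‖U w₁‖ / (2 * C)) = ‖U w₁‖ / 2 := by
    field_simp
  rw [h2] at h1
  have h3 := norm_nonneg (U w₁)
  obtain ⟨w, hw⟩ := hne
  have h4 := hcon w hw
  have h5 := norm_nonneg (U w)
  nlinarith

/-- the conclusion for one form: every value is controlled by a value at a point of the strip over `Z` -/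
def Ctl (A : ℕ) (R C Y : ℝ) (Z : Set ℝ) (U : ℂ → ℂ) : Prop :=
  ∀ z : ℂ, 0 < z.im → ∃ w : ℂ, w.re ∈ Z ∧ Y ≤ w.im ∧ w.im ≤ R * Y ∧ ‖U z‖ ≤ C * (z.im + 1 / z.im) ^ A * ‖U w‖

lemma ctl_of {A : ℕ} {q R C C₂ Y : ℝ} {Z : Set ℝ} {U : ℂ → ℂ} (hZ : Z.Nonempty) (hY : 0 < Y) (hR : 1 ≤ R) (hC : 0 < C)
    (hC₂ : 0 < C₂)
    (h1 : ∀ z : ℂ, 0 < z.im → ∃ w : ℂ, q * Y ≤ w.im ∧ w.im ≤ 2 * q * Y ∧ ‖U z‖ ≤ C₂ * (z.im + 1 / z.im) ^ A * ‖U w‖)
    (h2 : ∀ δ : ℝ, 0 ≤ δ → Dead U Z Y (R * Y) δ → ∀ z : ℂ, q * Y ≤ z.im → z.im ≤ 2 * q * Y → ‖U z‖ ≤ C * δ) :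
    Ctl A R (C₂ * (2 * C)) Y Z U := by
  intro z hz
  obtain ⟨w₁, hw1, hw2, hw3⟩ := h1 z hz
  obtain ⟨x, hx⟩ := hZ
  obtain ⟨w, ⟨hwZ, hwa, hwb⟩, hw⟩ := pick (S := {w : ℂ | w.re ∈ Z ∧ Y ≤ w.im ∧ w.im ≤ R * Y})
    ⟨⟨x, Y⟩, hx, le_rfl, by show Y ≤ R * Y; nlinarith⟩ (w₁ := w₁) (U := U) hC
    (fun δ hδ hd => h2 δ hδ (fun w a b c => hd w ⟨a, b, c⟩) w₁ hw1 hw2)
  refine ⟨w, hwZ, hwa, hwb, ?_⟩
  have hz1 : 0 ≤ C₂ * (z.im + 1 / z.im) ^ A := by positivity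
  calc ‖U z‖ ≤ C₂ * (z.im + 1 / z.im) ^ A * ‖U w₁‖ := hw3
    _ ≤ C₂ * (z.im + 1 / z.im) ^ A * (2 * C * ‖U w‖) := by gcongr
    _ = _ := by ring

/-- the strip over `Z` controls all values of all forms -/
def Controls (A : ℕ) (Z : Set ℝ) : Prop := ∃ R : ℝ, 1 ≤ R ∧ ∀ Y : ℝ, 0 < Y → ∃ C : ℝ, 0 < C ∧
  ∀ (U : ℂ → ℂ) (T : ℝ), IsHeckeMaass U T → Ctl A R C Y Z U

/-- even or odd -/
def Parity (U : ℂ → ℂ) : Prop :=
  (∀ z : ℂ, 0 < z.im → U (-(starRingEnd ℂ z)) = U z) ∨ (∀ z : ℂ, 0 < z.im → U (-(starRingEnd ℂ z)) = -U z)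

/-- the strip over `Z` controls all values of all even and all odd forms -/
def ControlsP (A : ℕ) (Z : Set ℝ) : Prop := ∃ R : ℝ, 1 ≤ R ∧ ∀ Y : ℝ, 0 < Y → ∃ C : ℝ, 0 < C ∧
  ∀ (U : ℂ → ℂ) (T : ℝ), IsHeckeMaass U T → Parity U → Ctl A R C Y Z U

lemma Thick.nonempty {p : ℕ} (hp : 2 ≤ p) {Z : Set ℝ} (hT : Thick p Z) : Z.Nonempty := by
  by_contra h
  rw [Set.not_nonempty_iff_eq_empty] at h
  have := hT 0 0 1 (by omega) (by omega) (by rw [h]; exact Set.notMem_empty _) (by rw [h]; exact Set.notMem_empty _)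
  omega

theorem exists_all (hHIT : S_HITu) : ∃ A : ℕ,
    (∀ (p : ℕ) (Z : Set ℝ), p.Prime → IsClosed Z → Inv Z → Thick p Z → Controls A Z) ∧
    (∃ R : ℝ, 1 ≤ R ∧ ∀ Y : ℝ, 0 < Y → ∃ C : ℝ, 0 < C ∧ ∀ (U : ℂ → ℂ) (T : ℝ), IsHeckeMaass U T → ∀ c : ℝ,
      Ctl A R C Y (Set.Icc c (c + 1 / 2)) U) ∧
    (∀ ε : ℝ, 0 < ε → Controls A (Set.Icc (1 / 3 - ε) (2 / 3 + ε))) := by
  obtain ⟨A, hA⟩ := ctrl
  refine ⟨A, ?_, ?_, ?_⟩
  · intro p Z hp hc hi hT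
    obtain ⟨q, R, C, hq, hR, hC, h⟩ := band hHIT t_GROW KK KK_nonneg hp hc hi hT
    refine ⟨R, by linarith, fun Y hY => ?_⟩
    obtain ⟨C₂, hC₂, h'⟩ := hA q Y hq hY
    exact ⟨C₂ * (2 * C), by positivity, fun U T hU => ctl_of (hT.nonempty hp.two_le) hY (by linarith) hC hC₂
      (h' U T hU) (fun δ hδ hd => h U (isPer hU) Y δ hY hδ hd)⟩
  · obtain ⟨q, R, C, hq, hR, hC, h⟩ := bandu hHIT t_GROW KK KK_nonneg Nat.prime_two (r := 1 / 16) (by norm_num)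
    refine ⟨R, by linarith, fun Y hY => ?_⟩
    obtain ⟨C₂, hC₂, h'⟩ := hA q Y hq hY
    refine ⟨C₂ * (2 * C), by positivity, fun U T hU c => ?_⟩
    refine ctl_of ⟨c, by constructor <;> linarith⟩ hY (by linarith) hC hC₂ (h' U T hU) (fun δ hδ hd => ?_)
    refine h (Half c) (inv_half c) (thick_half c) (half_O c) U (isPer hU) Y δ hY hδ ?_
    intro w ⟨n, hn1, hn2⟩ hwa hwb
    have hw0 : 0 < w.im := hY.trans_le hwa
    have e := (isPer hU).int n hw0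
    rw [← e]
    exact hd (w + n) (by simp only [Complex.add_re, Complex.intCast_re]; exact ⟨hn1, hn2⟩) (by simpa using hwa)
      (by simpa using hwb)
  · intro ε hε
    obtain ⟨q, R, C, hq, hR, hC, h⟩ := band_third hHIT t_GROW KK KK_nonneg hε
    refine ⟨R, by linarith, fun Y hY => ?_⟩
    obtain ⟨C₂, hC₂, h'⟩ := hA q Y hq hY
    refine ⟨C₂ * (2 * C), by positivity, fun U T hU => ctl_of ⟨1 / 2, by constructor <;> linarith⟩ hY (by linarith)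
      hC hC₂ (h' U T hU) (fun δ hδ hd => h U (isPer hU) Y δ hY hδ ?_)⟩
    intro w hw h1 h2
    rw [abs_le] at hw
    exact hd w ⟨by linarith [hw.1], by linarith [hw.2]⟩ h1 h2

lemma parity_norm {U : ℂ → ℂ} (h : Parity U) {w : ℂ} (hw : 0 < w.im) : ‖U (-(starRingEnd ℂ w))‖ = ‖U w‖ := by
  rcases h with h | h
  · rw [h w hw]
  · rw [h w hw, norm_neg]

theorem parity_thick {A : ℕ}
    (h : ∀ (p : ℕ) (Z : Set ℝ), p.Prime → IsClosed Z → Inv Z → Thick p Z → Controls A Z) :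
    ∀ (p : ℕ) (Z : Set ℝ), p.Prime → IsClosed Z → Inv Z → Thick p (Z ∪ {x | -x ∈ Z}) → ControlsP A Z := by
  intro p Z hp hc hi hT
  have hi' : Inv (Z ∪ {x | -x ∈ Z}) := by
    intro x
    have h1 := hi x
    have h2 := hi (-(x + 1))
    rw [show -(x + 1) + 1 = -x by ring] at h2
    constructor
    · rintro (h3 | h3)
      · exact Or.inl (h1.1 h3)
      · exact Or.inr (h2.2 h3)
    · rintro (h3 | h3)
      · exact Or.inl (h1.2 h3)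
      · exact Or.inr (h2.1 h3)
  obtain ⟨R, hR, h'⟩ := h p _ hp (hc.union (hc.preimage continuous_neg)) hi' hT
  refine ⟨R, hR, fun Y hY => ?_⟩
  obtain ⟨C, hC, h''⟩ := h' Y hY
  refine ⟨C, hC, fun U T hU hP z hz => ?_⟩
  obtain ⟨w, hw, h1, h2, h3⟩ := h'' U T hU z hz
  rcases hw with hw | hw
  · exact ⟨w, hw, h1, h2, h3⟩
  · refine ⟨-(starRingEnd ℂ w), ?_, ?_, ?_, ?_⟩
    · simpa using hw
    · simpa using h1
    · simpa using h2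
    · rw [parity_norm hP (hY.trans_le h1)]
      exact h3

theorem parity_third {A : ℕ} {ε : ℝ} (h : Controls A (Set.Icc (1 / 3 - ε) (2 / 3 + ε))) :
    ControlsP A (Set.Icc (1 / 3 - ε) (1 / 2)) := by
  obtain ⟨R, hR, h'⟩ := h
  refine ⟨R, hR, fun Y hY => ?_⟩
  obtain ⟨C, hC, h''⟩ := h' Y hY
  refine ⟨C, hC, fun U T hU hP z hz => ?_⟩
  obtain ⟨w, hw, h1, h2, h3⟩ := h'' U T hU z hz
  rcases le_total w.re (1 / 2) with h4 | h4
  · exact ⟨w, ⟨hw.1, h4⟩, h1, h2, h3⟩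
  · have hw0 : 0 < w.im := hY.trans_le h1
    have hw0' : 0 < (-(starRingEnd ℂ w)).im := by simpa using hw0
    refine ⟨-(starRingEnd ℂ w) + 1, ⟨?_, ?_⟩, ?_, ?_, ?_⟩
    · simp only [Complex.add_re, Complex.neg_re, Complex.conj_re, Complex.one_re]
      linarith [hw.2]
    · simp only [Complex.add_re, Complex.neg_re, Complex.conj_re, Complex.one_re]
      linarith
    · simpa using h1
    · simpa using h2
    · rw [(hU.2.1 _ hw0').1, parity_norm hP hw0]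
      exact h3

/-- the sup-norm bounds -/
theorem equiv_box {A : ℕ} {α β : ℝ} {R : ℝ} (hR : ∀ Y : ℝ, 0 < Y → ∃ C : ℝ, 0 < C ∧
    ∀ (U : ℂ → ℂ) (T : ℝ), IsHeckeMaass U T → Ctl A R C Y (Set.Icc α β) U) {Y : ℝ} (hY : 0 < Y) (s : ℝ) :
    (∀ Ω : Set ℂ, IsCompact Ω → Ω ⊆ {z : ℂ | 0 < z.im} → SupNormBound Ω s) ↔
      SupNormBound {w : ℂ | w.re ∈ Set.Icc α β ∧ Y ≤ w.im ∧ w.im ≤ R * Y} s := by
  constructor
  · intro h
    refine h _ ?_ (fun w hw => hY.trans_le hw.2.1)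
    have hc : IsCompact (Complex.equivRealProdCLM.symm '' (Set.Icc α β ×ˢ Set.Icc Y (R * Y))) :=
      (isCompact_Icc.prod isCompact_Icc).image Complex.equivRealProdCLM.symm.continuous
    have e : Complex.equivRealProdCLM.symm '' (Set.Icc α β ×ˢ Set.Icc Y (R * Y)) =
        {w : ℂ | w.re ∈ Set.Icc α β ∧ Y ≤ w.im ∧ w.im ≤ R * Y} := by
      ext z
      constructor
      · rintro ⟨⟨a, b⟩, ⟨ha, hb⟩, rfl⟩
        exact ⟨ha, hb.1, hb.2⟩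
      · rintro ⟨h1, h2, h3⟩
        exact ⟨(z.re, z.im), ⟨h1, ⟨h2, h3⟩⟩, rfl⟩
    rwa [e] at hc
  · rintro ⟨B, hB⟩ Ω hΩ hΩ'
    obtain ⟨C, hC, h⟩ := hR Y hY
    have hcont : ContinuousOn (fun z : ℂ => (z.im + 1 / z.im) ^ A) Ω := by
      refine ContinuousOn.pow (ContinuousOn.add Complex.continuous_im.continuousOn ?_) _
      exact ContinuousOn.div continuousOn_const Complex.continuous_im.continuousOn (fun z hz => (hΩ' hz).ne')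
    obtain ⟨M, hM⟩ := (hΩ.bddAbove_image hcont)
    refine ⟨C * |M| * |B|, fun U T hT hU z hz => ?_⟩
    have hz0 : 0 < z.im := hΩ' hz
    obtain ⟨w, hw, h1, h2, h3⟩ := h U T hU z hz0
    have h4 := hB U T hT hU w ⟨hw, h1, h2⟩
    have h5 : (z.im + 1 / z.im) ^ A ≤ |M| := (hM ⟨z, hz, rfl⟩).trans (le_abs_self M)
    have hTs : 0 < T ^ s := Real.rpow_pos_of_pos (by linarith) _
    have h6 : ‖U w‖ ≤ |B| * T ^ s := h4.trans (by gcongr; exact le_abs_self B)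
    calc ‖U z‖ ≤ C * (z.im + 1 / z.im) ^ A * ‖U w‖ := h3
      _ ≤ C * |M| * (|B| * T ^ s) := by gcongr
      _ = _ := by ring

end Pool.Agent.D0H19.HS
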